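import Pool.Agent.Helper2.FX.StG

/-!
# Project FX, module IMP: submersions are local products
-/

set_option autoImplicit false

namespace Pool.Agent.Helper91.FX

open Set Metric Pool.Agent.Helper84.FX Pool.Agent.Helper2.FX

/-- the version over a general field (real or complex numbers) -/
theorem hIMPk (k : Type) [RCLike k] (E F G : Type) [NormedAddCommGroup E] [NormedSpace k E]
    [FiniteDimensional k E] [NormedAddCommGroup F] [NormedSpace k F] [FiniteDimensional k F]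
    [NormedAddCommGroup G] [NormedSpace k G] [FiniteDimensional k G] (Ω : Set E) (h : E → F)
    (g : E → G) (hΩ : IsOpen Ω) (hh : ContinuousOn h Ω) (hg : ContinuousOn g Ω)
    (hL : ∀ z ∈ Ω, h z = 0 → g z = 0 → ∃ L : E →L[k] (F × G),
      HasStrictFDerivAt (fun x => (h x, g x)) L z ∧ Function.Surjective L) :
    LPr {x | x ∈ Ω ∧ h x = 0} g := by
  refine ⟨hg.mono (fun x hx => hx.1), ?_⟩
  rintro z ⟨hz, hhz⟩ hgz
  obtain ⟨L, hf, hs⟩ := hL z hz hhz hgz
  haveI : CompleteSpace E := FiniteDimensional.complete k E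
  have hr : L.range = ⊤ := LinearMap.range_eq_top.2 hs
  obtain ⟨e, he1, he2⟩ : ∃ e : OpenPartialHomeomorph E ((F × G) × L.ker),
      z ∈ e.source ∧ ∀ x, (e x).1 = (h x, g x) :=
    ⟨hf.implicitToOpenPartialHomeomorph _ L hr, hf.mem_implicitToOpenPartialHomeomorph_source hr,
      fun x => hf.implicitToOpenPartialHomeomorph_fst hr x⟩
  have hN : IsOpen (e.target ∩ e.symm ⁻¹' Ω) := e.isOpen_inter_preimage_symm hΩ
  have hzN : e z ∈ e.target ∩ e.symm ⁻¹' Ω := by
    refine ⟨e.map_source he1, ?_⟩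
    show e.symm (e z) ∈ Ω
    rw [e.left_inv he1]
    exact hz
  obtain ⟨ε, hε, hb⟩ := Metric.isOpen_iff.1 hN _ hzN
  have hez : e z = ((0, 0), (e z).2) := by
    refine Prod.ext ?_ rfl
    rw [he2 z, hhz, hgz]
  have hbox : ∀ (v : G) (a : L.ker), ‖v‖ < ε → a ∈ ball (e z).2 ε →
      (((0 : F), v), a) ∈ ball (e z) ε := by
    intro v a hv ha
    rw [mem_ball] at ha ⊢
    rw [Prod.dist_eq, max_lt_iff]
    refine ⟨?_, ha⟩
    rw [he2 z, hhz, hgz, Prod.dist_eq, max_lt_iff]
    refine ⟨by simpa using hε, ?_⟩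
    simpa [dist_zero_right] using hv
  refine ⟨e.source ∩ e ⁻¹' (ball (e z) ε), e.isOpen_inter_preimage isOpen_ball,
    ⟨he1, mem_ball_self hε⟩, ?_⟩
  refine ⟨L.ker, inferInstance, ball (e z).2 ε, ε, fun q => e.symm ((0, q.2), q.1),
    fun x => (e x).2, hε, hg.mono (fun x hx => hx.1.1), ⟨?_, ?_⟩, ⟨?_, ?_⟩, ?_, ?_⟩
  · refine e.continuousOn_symm.comp (Continuous.continuousOn (by fun_prop)) ?_
    rintro ⟨a, v⟩ ⟨ha, hv⟩
    exact (hb (hbox v a (by simpa using hv) ha)).1
  · rintro ⟨a, v⟩ ⟨ha, hv⟩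
    have hv' : ‖v‖ < ε := by simpa using hv
    have hp := hbox v a hv' ha
    obtain ⟨ht, hΩ'⟩ := hb hp
    have hr1 : e (e.symm ((0, v), a)) = ((0, v), a) := e.right_inv ht
    refine ⟨⟨hΩ', ?_⟩, e.map_target ht, ?_⟩
    · have h1 := he2 (e.symm ((0, v), a))
      rw [hr1] at h1
      exact (congrArg Prod.fst h1).symm
    · show e (e.symm ((0, v), a)) ∈ ball (e z) ε
      rw [hr1]
      exact hp
  · exact (continuous_snd.comp_continuousOn e.continuousOn).mono (fun x hx => hx.2.1)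
  · rintro x ⟨-, -, hx⟩
    have hx' : dist (e x) (e z) < ε := hx
    rw [Prod.dist_eq, max_lt_iff] at hx'
    exact hx'.2
  · rintro x ⟨⟨hxΩ, hx0⟩, hxs, hx⟩
    have hx' : dist (e x) (e z) < ε := hx
    rw [Prod.dist_eq, max_lt_iff] at hx'
    have h1 := hx'.1
    rw [he2 x, he2 z, hhz, hgz, Prod.dist_eq, max_lt_iff] at h1
    refine ⟨by simpa [dist_zero_right] using h1.2, ?_⟩
    show e.symm ((0, g x), (e x).2) = x
    have h2 : (((0 : F), g x), (e x).2) = e x := by
      refine Prod.ext ?_ rfl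
      rw [he2 x, hx0]
    rw [h2, e.left_inv hxs]
  · intro a ha v hv
    obtain ⟨ht, hΩ'⟩ := hb (hbox v a hv ha)
    have hr1 : e (e.symm ((0, v), a)) = ((0, v), a) := e.right_inv ht
    constructor
    · show (e (e.symm ((0, v), a))).2 = a
      rw [hr1]
    · have h1 := he2 (e.symm ((0, v), a))
      rw [hr1] at h1
      exact (congrArg Prod.snd h1).symm

theorem hIMP : StIMP := by
  intro E F G _ _ _ _ _ _ _ _ _ Ω h g hΩ hh hg hL
  exact hIMPk ℂ E F G Ω h g hΩ hh hg hL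

end Pool.Agent.Helper91.FX
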