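import Pool.Agent.Helper84.FX.StX

/-!
# Project FX, module B10: the part `ρ ≠ 0`, `σ = 0` over `W`

Both sides are homotopy equivalent to `{(t, ρ) : t ∈ U, ρ ≠ 0}`.
-/

set_option autoImplicit false

namespace Pool.Agent.Helper91.FX

open Set Pool.Agent.Helper84.FX Pool.Agent.Helper72.FX

noncomputable section

/-- the base -/
private def BB (U : Set ℂ) : Set (ℂ × ℂ) := {q | q.1 ∈ U ∧ q.2 ≠ 0}

/-- the part over `W` -/
private def XW (U : Set ℂ) : Set (Fin 10 → ℂ) := {z | (z ∈ WW U ∧ z 3 ≠ 0) ∧ z 5 = 0}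

/-- the cylinder part -/
private def XC (U : Set ℂ) : Set ((Fin 10 → ℂ) × ℝ) :=
  {q | (q ∈ DM (N1 U) (N2 U) ∧ q.1 3 ≠ 0) ∧ q.1 5 = 0}

/-- the projection -/
private def pB (z : Fin 10 → ℂ) : ℂ × ℂ := (z 2, z 3)

/-- the section -/
private def sW (q : ℂ × ℂ) : Fin 10 → ℂ := ![0, 0, q.1, q.2, 0, 0, 0, 0, 0, 0]

private def nn (c : ℂ) (z : Fin 10 → ℂ) : ℂ := nu (c * z 0) (c * z 1) (z 2) / z 3

private def HW (q : ℝ × (Fin 10 → ℂ)) : Fin 10 → ℂ :=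
  ![(q.1 : ℂ) * q.2 0, (q.1 : ℂ) * q.2 1, q.2 2, q.2 3, nn q.1 q.2, 0, (q.1 : ℂ) * q.2 6,
    (q.1 : ℂ) * q.2 7,
    (q.1 : ℂ) * q.2 7 + (q.1 : ℂ) * q.2 6 * nn q.1 q.2 *
      kappa ((q.1 : ℂ) * q.2 0) ((q.1 : ℂ) * q.2 1) (q.2 2),
    (q.1 : ℂ) * q.2 9]

private lemma nu_zero (t : ℂ) : nu (0 : ℂ) 0 t = 0 := by simp [nu]

private lemma nn_zero (z : Fin 10 → ℂ) : nn 0 z = 0 := by simp [nn, nu_zero]

private lemma cont_nu : Continuous (fun q : ℂ × ℂ × ℂ => nu q.1 q.2.1 q.2.2) := by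
  unfold nu
  fun_prop

private lemma cont_nn {T : Type} [TopologicalSpace T] (S : Set T) (f : T → ℂ)
    (g : T → (Fin 10 → ℂ)) (hf : ContinuousOn f S) (hg : ContinuousOn g S)
    (h : ∀ x ∈ S, g x 3 ≠ 0) : ContinuousOn (fun x => nn (f x) (g x)) S := by
  have hc : ∀ i, ContinuousOn (fun x => g x i) S := fun i => (continuousOn_pi.1 hg) i
  have h0 := hc 0
  have h1 := hc 1
  have h2 := hc 2
  have h3 := hc 3
  simp only [nn, nu]
  refine ContinuousOn.div ?_ h3 h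
  fun_prop

private lemma mem_XW {U : Set ℂ} {z : Fin 10 → ℂ} :
    z ∈ XW U ↔ z 2 ∈ U ∧ z 3 ≠ 0 ∧ z 5 = 0 ∧ nu (z 0) (z 1) (z 2) = z 3 * z 4 ∧
      z 8 = z 7 + z 6 * z 4 * kappa (z 0) (z 1) (z 2) := by
  simp only [XW, WW, EE1, EE2, E1, E2, mem_ofPred_eq]
  constructor
  · rintro ⟨⟨⟨h2, h1, h3⟩, h4⟩, h5⟩
    rw [h5] at h1 h3
    refine ⟨h2, h4, h5, ?_, ?_⟩
    · linear_combination h1
    · linear_combination h3
  · rintro ⟨h2, h4, h5, h1, h3⟩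
    rw [h5, h3, h1]
    refine ⟨⟨⟨h2, ?_, ?_⟩, h4⟩, rfl⟩
    · ring
    · generalize kappa (z 0) (z 1) (z 2) = k
      ring

private lemma HW_mem {U : Set ℂ} (s : ℝ) (z : Fin 10 → ℂ) (hz : z ∈ XW U) : HW (s, z) ∈ XW U := by
  rw [mem_XW] at hz
  obtain ⟨h2, h3, -, -, -⟩ := hz
  rw [mem_XW]
  refine ⟨?_, ?_, ?_, ?_, ?_⟩
  · simpa [HW] using h2
  · simpa [HW] using h3
  · simp [HW]
  · simp only [HW, nn]
    simp
    field_simp
  · simp [HW]

private lemma HW_one {U : Set ℂ} (z : Fin 10 → ℂ) (hz : z ∈ XW U) : HW (1, z) = z := by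
  rw [mem_XW] at hz
  obtain ⟨h2, h3, h5, h4, h8⟩ := hz
  have hn : nn 1 z = z 4 := by
    unfold nn
    rw [one_mul, one_mul, h4]
    field_simp
  funext i
  fin_cases i <;> simp [HW, hn, h5, h8]

private lemma HW_zero (z : Fin 10 → ℂ) : HW (0, z) = sW (pB z) := by
  funext i
  fin_cases i <;> simp [HW, sW, pB, nn_zero]

private lemma cont_HW (hK : Continuous (fun q : ℂ × ℂ × ℂ => kappa q.1 q.2.1 q.2.2)) (U : Set ℂ) :
    ContinuousOn HW (II ×ˢ XW U) := by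
  have hf : ContinuousOn (fun q : ℝ × (Fin 10 → ℂ) => (q.1 : ℂ)) (II ×ˢ XW U) := by fun_prop
  have hg : ContinuousOn (fun q : ℝ × (Fin 10 → ℂ) => q.2) (II ×ˢ XW U) := by fun_prop
  have hn := cont_nn (II ×ˢ XW U) _ _ hf hg (fun x hx => (mem_XW.1 hx.2).2.1)
  have hk : ContinuousOn (fun q : ℝ × (Fin 10 → ℂ) =>
      kappa ((q.1 : ℂ) * q.2 0) ((q.1 : ℂ) * q.2 1) (q.2 2)) (II ×ˢ XW U) := by
    have h1 : Continuous (fun q : ℝ × (Fin 10 → ℂ) =>
      (((q.1 : ℂ) * q.2 0, (q.1 : ℂ) * q.2 1, q.2 2) : ℂ × ℂ × ℂ)) := by fun_prop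
    exact (hK.comp h1).continuousOn
  have hc : ∀ i, ContinuousOn (fun q : ℝ × (Fin 10 → ℂ) => q.2 i) (II ×ˢ XW U) :=
    fun i => (continuousOn_pi.1 hg) i
  refine continuousOn_pi.2 fun i => ?_
  fin_cases i
  · exact hf.mul (hc 0)
  · exact hf.mul (hc 1)
  · exact hc 2
  · exact hc 3
  · exact hn
  · exact continuousOn_const
  · exact hf.mul (hc 6)
  · exact hf.mul (hc 7)
  · exact (hf.mul (hc 7)).add (((hf.mul (hc 6)).mul hn).mul hk)
  · exact hf.mul (hc 9)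

private lemma sW_mem {U : Set ℂ} (q : ℂ × ℂ) (hq : q ∈ BB U) : sW q ∈ XW U := by
  rw [mem_XW]
  obtain ⟨h1, h2⟩ := hq
  refine ⟨?_, ?_, ?_, ?_, ?_⟩
  · simpa [sW] using h1
  · simpa [sW] using h2
  · simp [sW]
  · simp [sW, nu]
  · simp [sW]

private lemma cont_sW : Continuous sW := by
  refine continuous_pi fun i => ?_
  fin_cases i
  · exact continuous_const
  · exact continuous_const
  · exact continuous_fst
  · exact continuous_snd
  · exact continuous_const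
  · exact continuous_const
  · exact continuous_const
  · exact continuous_const
  · exact continuous_const
  · exact continuous_const

private lemma pB_sW (q : ℂ × ℂ) : pB (sW q) = q := by
  simp [pB, sW]

private lemma we_W (hEQ : StHEQ) (hKS : StKSM) (U : Set ℂ) : WE (XW U) (BB U) pB := by
  refine hEQ _ _ _ _ pB sW ⟨?_, ?_⟩ ⟨cont_sW.continuousOn, fun q hq => sW_mem q hq⟩ ?_ ?_
  · unfold pB
    fun_prop
  · intro z hz
    rw [mem_XW] at hz
    exact ⟨hz.1, hz.2.1⟩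
  · refine ⟨HW, ⟨cont_HW hKS.2.2.2.1.continuous U, ?_⟩, fun z _ => HW_zero z, fun z hz => ?_⟩
    · rintro ⟨s, z⟩ ⟨-, hz⟩
      exact HW_mem s z hz
    · rw [HW_one z hz, id]
  · refine ⟨fun q => q.2, ⟨continuousOn_snd, fun q hq => hq.2⟩, fun q _ => ?_, fun q _ => rfl⟩
    exact (pB_sW q).symm

/-! ### The cylinder part -/

private def al (s : ℝ) : ℝ := max 0 (3 * s - 2)
private def ga (s : ℝ) : ℝ := min (3 * s) 1
private def be (s : ℝ) : ℝ := 1 - max 0 (min 1 (3 * s - 1))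

private lemma be_nonneg (s : ℝ) : 0 ≤ be s := by
  unfold be
  have : max 0 (min 1 (3 * s - 1)) ≤ 1 := max_le (by norm_num) (min_le_left _ _)
  linarith

private lemma be_le (s : ℝ) : be s ≤ 1 := by
  unfold be
  have : 0 ≤ max 0 (min 1 (3 * s - 1)) := le_max_left _ _
  linarith

private lemma ga_of (s : ℝ) (h : be s < 1) : ga s = 1 := by
  unfold be at h
  unfold ga
  have h1 : 0 < max 0 (min 1 (3 * s - 1)) := by linarith
  have h2 : 0 < 3 * s - 1 := by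
    rcases lt_max_iff.1 h1 with h | h
    · exact absurd h (lt_irrefl _)
    · exact (lt_min_iff.1 h).2
  exact min_eq_right (by linarith)

private lemma al_of (s : ℝ) (h : 0 < be s) : al s = 0 := by
  unfold be at h
  unfold al
  have h1 : max 0 (min 1 (3 * s - 1)) < 1 := by linarith
  have h2 : min 1 (3 * s - 1) < 1 := (max_lt_iff.1 h1).2
  have h3 : 3 * s - 1 < 1 := by
    rcases min_lt_iff.1 h2 with h | h
    · exact absurd h (lt_irrefl _)
    · exact h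
  exact max_eq_left (by linarith)

private lemma mem_XC {U : Set ℂ} {q : (Fin 10 → ℂ) × ℝ} :
    q ∈ XC U ↔ q.1 2 ∈ U ∧ q.1 3 ≠ 0 ∧ q.1 5 = 0 ∧ 0 ≤ q.2 ∧ q.2 ≤ 1 ∧
      nu (q.1 0) (q.1 1) (q.1 2) = q.1 3 * q.1 4 ∧ q.1 7 = 0 ∧ q.1 8 = 0 ∧ q.1 9 = 0 ∧
      (q.2 < 1 → q.1 4 = 0) ∧ (0 < q.2 → q.1 6 = 0) := by
  obtain ⟨z, r⟩ := q
  simp only [XC, DM, N1, N2, nz, mem_ofPred_eq]
  constructor
  · rintro ⟨⟨⟨h0, h1, h2, h3⟩, h4⟩, h5⟩
    by_cases hr : 0 < r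
    · obtain ⟨a1, a2, a3, a4, a5, a6⟩ := h3 hr
      refine ⟨a1, h4, h5, h0, h1, a6, a3, a4, a5, fun h => (h2 h).2.1, fun _ => a2⟩
    · have hr' : r < 1 := by linarith
      obtain ⟨a1, a2, a3, a4, a5, a6⟩ := h2 hr'
      refine ⟨a1, h4, h5, h0, h1, ?_, a3, a4, a5, fun _ => a2, fun h => absurd h hr⟩
      rw [a6, h5, a2]
      ring
  · rintro ⟨h2, h3, h5, h0, h1, hn, h7, h8, h9, h4, h6⟩
    refine ⟨⟨⟨h0, h1, fun h => ⟨h2, h4 h, h7, h8, h9, ?_⟩, fun h => ⟨h2, h6 h, h7, h8, h9, hn⟩⟩,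
      h3⟩, h5⟩
    rw [hn, h5, h4 h]
    ring

private def HC (q : ℝ × ((Fin 10 → ℂ) × ℝ)) : (Fin 10 → ℂ) × ℝ :=
  (![(ga q.1 : ℂ) * q.2.1 0, (ga q.1 : ℂ) * q.2.1 1, q.2.1 2, q.2.1 3, nn (ga q.1) q.2.1, 0,
    (al q.1 : ℂ) * q.2.1 6, 0, 0, 0], q.2.2 + be q.1 * (1 - q.2.2))

private lemma nn_one {U : Set ℂ} {q : (Fin 10 → ℂ) × ℝ} (hq : q ∈ XC U) : nn 1 q.1 = q.1 4 := by
  rw [mem_XC] at hq
  obtain ⟨-, h3, -, -, -, hn, -⟩ := hq
  unfold nn
  rw [one_mul, one_mul, hn]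
  field_simp

private lemma HC_mem {U : Set ℂ} (s : ℝ) (q : (Fin 10 → ℂ) × ℝ) (hq : q ∈ XC U) :
    HC (s, q) ∈ XC U := by
  have hq' := hq
  rw [mem_XC] at hq
  obtain ⟨h2, h3, h5, h0, h1, hn, h7, h8, h9, h4, h6⟩ := hq
  have b0 := be_nonneg s
  have b1 := be_le s
  rw [mem_XC]
  refine ⟨?_, ?_, ?_, ?_, ?_, ?_, ?_, ?_, ?_, ?_, ?_⟩
  · simpa [HC] using h2
  · simpa [HC] using h3
  · simp [HC]
  · have := mul_nonneg b0 (sub_nonneg.2 h1)
    show 0 ≤ q.2 + be s * (1 - q.2)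
    linarith
  · show q.2 + be s * (1 - q.2) ≤ 1
    nlinarith
  · simp only [HC, nn]
    simp
    field_simp
  · simp [HC]
  · simp [HC]
  · simp [HC]
  · intro h
    have h' : q.2 + be s * (1 - q.2) < 1 := h
    have hb : be s < 1 := by
      rcases lt_or_eq_of_le b1 with h | h
      · exact h
      · rw [h] at h'
        linarith
    have hr : q.2 < 1 := by
      rcases lt_or_eq_of_le h1 with h | h
      · exact h
      · rw [h] at h'
        linarith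
    have hg := ga_of s hb
    show nn (ga s) q.1 = 0
    rw [hg]
    push_cast
    rw [nn_one hq', h4 hr]
  · intro h
    have h' : 0 < q.2 + be s * (1 - q.2) := h
    show (al s : ℂ) * q.1 6 = 0
    rcases lt_or_eq_of_le h0 with hr | hr
    · rw [h6 hr, mul_zero]
    · rw [← hr] at h'
      have hb : 0 < be s := by linarith
      rw [al_of s hb]
      simp

private lemma HC_one {U : Set ℂ} (q : (Fin 10 → ℂ) × ℝ) (hq : q ∈ XC U) : HC (1, q) = q := by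
  have hn := nn_one hq
  rw [mem_XC] at hq
  obtain ⟨h2, h3, h5, h0, h1, -, h7, h8, h9, h4, h6⟩ := hq
  have e1 : ga 1 = 1 := by unfold ga; norm_num
  have e2 : al 1 = 1 := by unfold al; norm_num
  have e3 : be 1 = 0 := by unfold be; norm_num
  refine Prod.ext ?_ ?_
  · simp only [HC, e1, e2, Complex.ofReal_one]
    funext i
    fin_cases i <;> simp [hn, h5, h7, h8, h9]
  · simp [HC, e3]

private lemma HC_zero (q : (Fin 10 → ℂ) × ℝ) : HC (0, q) = (sW (pB q.1), 1) := by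
  have e1 : ga 0 = 0 := by unfold ga; norm_num
  have e2 : al 0 = 0 := by unfold al; norm_num
  have e3 : be 0 = 1 := by unfold be; norm_num
  refine Prod.ext ?_ ?_
  · simp only [HC, e1, e2, Complex.ofReal_zero]
    funext i
    fin_cases i <;> simp [sW, pB, nn_zero]
  · simp [HC, e3]

private lemma cont_HC (U : Set ℂ) : ContinuousOn HC (II ×ˢ XC U) := by
  have c1 : Continuous ga := by unfold ga; fun_prop
  have c2 : Continuous al := by unfold al; fun_prop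
  have c3 : Continuous be := by unfold be; fun_prop
  have f1 : ContinuousOn (fun q : ℝ × ((Fin 10 → ℂ) × ℝ) => (ga q.1 : ℂ)) (II ×ˢ XC U) :=
    (Complex.continuous_ofReal.comp (c1.comp continuous_fst)).continuousOn
  have f2 : ContinuousOn (fun q : ℝ × ((Fin 10 → ℂ) × ℝ) => (al q.1 : ℂ)) (II ×ˢ XC U) :=
    (Complex.continuous_ofReal.comp (c2.comp continuous_fst)).continuousOn
  have f3 : ContinuousOn (fun q : ℝ × ((Fin 10 → ℂ) × ℝ) => be q.1) (II ×ˢ XC U) :=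
    (c3.comp continuous_fst).continuousOn
  have hg : ContinuousOn (fun q : ℝ × ((Fin 10 → ℂ) × ℝ) => q.2.1) (II ×ˢ XC U) := by fun_prop
  have hr : ContinuousOn (fun q : ℝ × ((Fin 10 → ℂ) × ℝ) => q.2.2) (II ×ˢ XC U) := by fun_prop
  have hn := cont_nn (II ×ˢ XC U) _ _ f1 hg (fun x hx => (mem_XC.1 hx.2).2.1)
  have hc : ∀ i, ContinuousOn (fun q : ℝ × ((Fin 10 → ℂ) × ℝ) => q.2.1 i) (II ×ˢ XC U) :=
    fun i => (continuousOn_pi.1 hg) i
  refine ContinuousOn.prodMk (continuousOn_pi.2 fun i => ?_)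
    (hr.add (f3.mul (continuousOn_const.sub hr)))
  fin_cases i
  · exact f1.mul (hc 0)
  · exact f1.mul (hc 1)
  · exact hc 2
  · exact hc 3
  · exact hn
  · exact continuousOn_const
  · exact f2.mul (hc 6)
  · exact continuousOn_const
  · exact continuousOn_const
  · exact continuousOn_const

private lemma sC_mem {U : Set ℂ} (q : ℂ × ℂ) (hq : q ∈ BB U) : (sW q, (1 : ℝ)) ∈ XC U := by
  rw [mem_XC]
  obtain ⟨h1, h2⟩ := hq
  refine ⟨?_, ?_, ?_, ?_, ?_, ?_, ?_, ?_, ?_, ?_, ?_⟩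
  · simpa [sW] using h1
  · simpa [sW] using h2
  · simp [sW]
  · norm_num
  · norm_num
  · simp [sW, nu]
  · simp [sW]
  · simp [sW]
  · simp [sW]
  · intro _
    simp [sW]
  · intro _
    simp [sW]

private lemma we_C (hEQ : StHEQ) (U : Set ℂ) : WE (XC U) (BB U) (fun q => pB q.1) := by
  refine hEQ _ _ _ _ _ (fun q => (sW q, (1 : ℝ))) ⟨?_, ?_⟩
    ⟨(cont_sW.prodMk continuous_const).continuousOn, fun q hq => sC_mem q hq⟩ ?_ ?_
  · unfold pB
    fun_prop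
  · intro z hz
    rw [mem_XC] at hz
    exact ⟨hz.1, hz.2.1⟩
  · refine ⟨HC, ⟨cont_HC U, ?_⟩, fun z _ => HC_zero z, fun z hz => ?_⟩
    · rintro ⟨s, z⟩ ⟨-, hz⟩
      exact HC_mem s z hz
    · rw [HC_one z hz, id]
  · refine ⟨fun q => q.2, ⟨continuousOn_snd, fun q hq => hq.2⟩, fun q _ => ?_, fun q _ => rfl⟩
    exact (pB_sW q).symm

/-- Module B10 of the project FX. -/
theorem hB10 : StHEQ → StCMP → StCN2 → StCGR → StDMP → StKSM → StB10 := by
  intro hEQ _ hCN2 _ hDMP hKS U _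
  refine hCN2 _ _ _ _ _ (BB U) _ pB ⟨?_, ?_⟩ (we_W hEQ hKS U) (we_C hEQ U)
  · exact (hDMP U).1.1.mono fun q hq => hq.1.1
  · intro q hq
    exact ⟨⟨(hDMP U).1.2 hq.1.1, hq.1.2⟩, hq.2⟩

end

end Pool.Agent.Helper91.FX
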